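import Pool.Agent.W886.RU.Defs

/-!
# Statements over Mathlib only
-/

set_option autoImplicit false

namespace Pool.Agent.W886.RU

open MeasureTheory

def S_UD0 : Prop :=
  ∀ (A : ℕ → Bool) (n : ℕ) (P : (Fin n → ℕ) → Prop), Delta0 A n P →
    ∃ Φ : (ℕ → Bool) → (Fin n → ℕ) → Prop, UD0 n Φ ∧ P = Φ A

def S_CNT : Prop := ∀ n : ℕ, {Φ : (ℕ → Bool) → (Fin n → ℕ) → Prop | UD0 n Φ}.Countable

/-- the asymptotic bound -/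
def S_ASY : Prop :=
  ∀ k c : ℕ, ∃ ε : ℝ, 0 < ε ∧ ∀ (x₀ : ℕ), ∀ᶠ N : ℕ in Filter.atTop,
    ∃ M a t r s : ℕ, x₀ ≤ M ∧ 1 ≤ t ∧ (2 * M + 2) ^ c ≤ N ∧ a ≤ M ∧ a * t ≤ r ∧
      (r + 1) * s ≤ M ∧
      ((a : ℝ) * (2 * M + 2) ^ c * (1 / 2) ^ (t + 1) +
        a * ((r + 1) * (1 - (1 / (24 * t : ℝ)) ^ k) ^ s) + (1 / 2) ^ a) *
        (N + 1 : ℝ) ^ ((N : ℝ) ^ ε) ≤ 1 / N

/-- from events to almost all sets and all changes -/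
def S_MEAS : Prop :=
  ∀ (S : Set (ℕ → Bool)) (g : ℕ → ℝ),
    (∀ (n₁ : ℕ) (δ : ℝ), 0 < δ → ∃ N : ℕ, n₁ ≤ N ∧ ∃ E : Finset (Fin N → Bool),
      (∀ A ∈ S, (fun i : Fin N => A i) ∈ E) ∧
      (E.card : ℝ) * 2 ^ (-(N : ℝ)) * (N + 1 : ℝ) ^ (max (g N) 0) ≤ δ) →
    ∀ᵐ O ∂randomSet, ∀ A : ℕ → Bool, Close g O A → A ∉ S

/-- the coding lemma -/
def S_CODE : Prop :=
  ∀ (K₀ : ℕ) (Q : ℕ → ℕ → (ℕ → Bool) → Prop),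
    (∀ e, ∃ d : ℕ, ∀ (x : ℕ) (A A' : ℕ → Bool), (∀ y < (x + 2) ^ d, A y = A' y) →
      (Q e x A ↔ Q e x A')) →
    ∃ K : ℕ → ℕ, (∀ e, K₀ ≤ K e) ∧ ∀ O : ℕ → Bool, ∃ A : ℕ → Bool,
      (∀ y, (∀ e x, y ≠ cd K e x) → A y = O y) ∧ ∀ e x, (A (cd K e x) = true ↔ Q e x A)

open Classical in
/-- there are few codes -/
def S_SPARSE : Prop :=
  ∀ ε : ℝ, 0 < ε → ∃ K₀ : ℕ, ∀ K : ℕ → ℕ, (∀ e, K₀ ≤ K e) → ∀ᶠ N : ℕ in Filter.atTop,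
    (((Finset.range N).filter (fun y => ∃ e x, y = cd K e x)).card : ℝ) ≤ (N : ℝ) ^ ε

/-- tuples -/
def S_TUP : Prop :=
  ∀ k : ℕ, ∃ p : MvPolynomial (Fin k) ℕ,
    Function.Injective (fun v : Fin k → ℕ => MvPolynomial.eval v p) ∧
    ∀ (v : Fin k → ℕ) (i : Fin k), v i ≤ MvPolynomial.eval v p

/-- the functions in `E²` are given by countably many local operations -/
def S_E2U : Prop :=
  ∃ U : (n : ℕ) → Set ((ℕ → Bool) → (Fin n → ℕ) → ℕ), (∀ n, (U n).Countable) ∧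
    (∀ (A : ℕ → Bool) (n : ℕ) (f : (Fin n → ℕ) → ℕ), E2 A n f → ∃ Ψ ∈ U n, f = Ψ A) ∧
    ∀ (n : ℕ), ∀ Ψ ∈ U n, ∃ d : ℕ, ∀ (m : ℕ) (v : Fin n → ℕ), (∀ i, v i ≤ m) →
      ∀ A A' : ℕ → Bool, (∀ y < (m + 2) ^ d, A y = A' y) → Ψ A v = Ψ A' v

/-- bounded formulas are in `E²` -/
def S_D0E2 : Prop :=
  ∀ (A : ℕ → Bool) (n : ℕ) (P : (Fin n → ℕ) → Prop), Delta0 A n P → E2Star A n P

/-- the parity predicate is in `E²` -/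
def S_PARE2 : Prop := ∀ A : ℕ → Bool, E2Star A 1 (fun v => Par A (v 0))

end Pool.Agent.W886.RU
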