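import Mathlib

/-!
# Bounded formulas and Grzegorczyk's class `E²` relative to a set of natural numbers

A set of natural numbers is given by its characteristic function `A : ℕ → Bool`.
-/

set_option autoImplicit false

namespace Pool.Agent.W886.RU

open MeasureTheory

/-- The predicates on natural numbers that are definable by bounded formulas relative to the set
`A`: the smallest class of predicates that contains `p = q`, `p ≤ q` and `p ∈ A` for all terms
(polynomials with natural coefficients) `p` and `q` and is closed under negation, conjunction and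
quantifiers `∃ x ≤ p`, where `p` is a term without `x`. -/
inductive Delta0 (A : ℕ → Bool) : (n : ℕ) → ((Fin n → ℕ) → Prop) → Prop
  | eq {n : ℕ} (p q : MvPolynomial (Fin n) ℕ) :
      Delta0 A n (fun v => MvPolynomial.eval v p = MvPolynomial.eval v q)
  | le {n : ℕ} (p q : MvPolynomial (Fin n) ℕ) :
      Delta0 A n (fun v => MvPolynomial.eval v p ≤ MvPolynomial.eval v q)
  | orc {n : ℕ} (p : MvPolynomial (Fin n) ℕ) :
      Delta0 A n (fun v => A (MvPolynomial.eval v p) = true)
  | not {n : ℕ} {P : (Fin n → ℕ) → Prop} : Delta0 A n P → Delta0 A n (fun v => ¬ P v)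
  | and {n : ℕ} {P Q : (Fin n → ℕ) → Prop} : Delta0 A n P → Delta0 A n Q →
      Delta0 A n (fun v => P v ∧ Q v)
  | bex {n : ℕ} {P : (Fin (n + 1) → ℕ) → Prop} (p : MvPolynomial (Fin n) ℕ) :
      Delta0 A (n + 1) P →
      Delta0 A n (fun v => ∃ x, x ≤ MvPolynomial.eval v p ∧ P (Matrix.vecCons x v))

/-- Grzegorczyk's class `E²` relative to the set `A`: the smallest class of functions that contains
the zero functions, the successor, the projections, `(x + 1) (y + 1)` and the characteristic
function of `A` and is closed under composition and limited recursion. -/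
inductive E2 (A : ℕ → Bool) : (n : ℕ) → ((Fin n → ℕ) → ℕ) → Prop
  | zero (n : ℕ) : E2 A n (fun _ => 0)
  | succ : E2 A 1 (fun v => v 0 + 1)
  | proj {n : ℕ} (i : Fin n) : E2 A n (fun v => v i)
  | mul : E2 A 2 (fun v => (v 0 + 1) * (v 1 + 1))
  | orc : E2 A 1 (fun v => (A (v 0)).toNat)
  | comp {n m : ℕ} {g : (Fin m → ℕ) → ℕ} {hs : Fin m → (Fin n → ℕ) → ℕ} :
      E2 A m g → (∀ i, E2 A n (hs i)) → E2 A n (fun v => g (fun i => hs i v))
  | lrec {n : ℕ} {g : (Fin n → ℕ) → ℕ} {h : (Fin (n + 2) → ℕ) → ℕ}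
      {b : (Fin (n + 1) → ℕ) → ℕ} {F : (Fin (n + 1) → ℕ) → ℕ} :
      E2 A n g → E2 A (n + 2) h → E2 A (n + 1) b → (∀ v, F v ≤ b v) →
      (∀ v : Fin n → ℕ, F (Matrix.vecCons 0 v) = g v) →
      (∀ (v : Fin n → ℕ) (y : ℕ), F (Matrix.vecCons (y + 1) v) =
        h (Matrix.vecCons (F (Matrix.vecCons y v)) (Matrix.vecCons y v))) →
      E2 A (n + 1) F

/-- The predicates whose characteristic functions are in `E²` relative to `A`. -/
def E2Star (A : ℕ → Bool) (k : ℕ) (R : (Fin k → ℕ) → Prop) : Prop :=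
  ∃ f : (Fin k → ℕ) → ℕ, E2 A k f ∧ ∀ v, (R v → f v = 0) ∧ (¬ R v → f v = 1)

/-- The fair coin. -/
noncomputable def coin : Measure Bool :=
  (2⁻¹ : ENNReal) • Measure.dirac true + (2⁻¹ : ENNReal) • Measure.dirac false

instance : IsProbabilityMeasure coin := ⟨by
  simp [coin, ENNReal.inv_two_add_inv_two]⟩

/-- The random set of natural numbers: for every number an independent toss of a fair coin decides
whether it is in the set. -/
noncomputable def randomSet : Measure (ℕ → Bool) := Measure.infinitePi (fun _ : ℕ => coin)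

/-- The set `A` is obtained from `O` by at most `g` changes: for all large `N`, the sets differ on
at most `g N` numbers below `N`. -/
def Close (g : ℕ → ℝ) (O A : ℕ → Bool) : Prop :=
  ∀ᶠ N : ℕ in Filter.atTop, (((Finset.range N).filter (fun i => A i ≠ O i)).card : ℝ) ≤ g N

/-- The number of the elements of `A` among `x ^ 2, x ^ 2 + 1, ..., x ^ 2 + x - 1` is odd. -/
def Par (A : ℕ → Bool) (x : ℕ) : Prop :=
  Odd ((Finset.range x).filter (fun w => A (x ^ 2 + w) = true)).card

/-- The operations that define predicates by bounded formulas, uniformly in the set. -/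
inductive UD0 : (n : ℕ) → ((ℕ → Bool) → (Fin n → ℕ) → Prop) → Prop
  | eq {n : ℕ} (p q : MvPolynomial (Fin n) ℕ) :
      UD0 n (fun _ v => MvPolynomial.eval v p = MvPolynomial.eval v q)
  | le {n : ℕ} (p q : MvPolynomial (Fin n) ℕ) :
      UD0 n (fun _ v => MvPolynomial.eval v p ≤ MvPolynomial.eval v q)
  | orc {n : ℕ} (p : MvPolynomial (Fin n) ℕ) :
      UD0 n (fun A v => A (MvPolynomial.eval v p) = true)
  | not {n : ℕ} {P : (ℕ → Bool) → (Fin n → ℕ) → Prop} : UD0 n P → UD0 n (fun A v => ¬ P A v)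
  | and {n : ℕ} {P Q : (ℕ → Bool) → (Fin n → ℕ) → Prop} : UD0 n P → UD0 n Q →
      UD0 n (fun A v => P A v ∧ Q A v)
  | bex {n : ℕ} {P : (ℕ → Bool) → (Fin (n + 1) → ℕ) → Prop} (p : MvPolynomial (Fin n) ℕ) :
      UD0 (n + 1) P →
      UD0 n (fun A v => ∃ x, x ≤ MvPolynomial.eval v p ∧ P A (Matrix.vecCons x v))

/-- the numbers that code the answers -/
def cd (K : ℕ → ℕ) (e x : ℕ) : ℕ := 2 ^ e * (2 * (x + e + 2) ^ K e + 1)

end Pool.Agent.W886.RU
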