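import Pool.Agent.W886.RU.Stm0

/-!
# Spectra relative to a set of natural numbers
-/

set_option autoImplicit false

namespace Pool.Agent.W886.RU

open FirstOrder FirstOrder.Language

/-- The vocabulary of the sentences: it has infinitely many function symbols and infinitely many
relation symbols of every arity (a sentence contains only finitely many of them). -/
def Voc : FirstOrder.Language.{0, 0} := ⟨fun _ => ℕ, fun _ => ℕ⟩

/-- The symbols for the order and, for every `k`, for the `k`-ary relation that is given by the
oracle. -/
inductive ORel : ℕ → Type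
  | le : ORel 2
  | orc (k : ℕ) : ORel k

/-- The vocabulary of the built-in relations. -/
def OVoc : FirstOrder.Language.{0, 0} := ⟨fun _ => Empty, ORel⟩

/-- The built-in relations on `{0, ..., n - 1}`: the usual order, and the `k`-ary relation that
holds for `a` if the number `a 0 + a 1 * n + ... + a (k - 1) * n ^ (k - 1)` is in `A`. -/
def std (A : ℕ → Bool) (n : ℕ) : OVoc.Structure (Fin n) where
  funMap := fun f _ => f.elim
  RelMap := fun r => match r with
    | ORel.le => fun a => a 0 ≤ a 1
    | ORel.orc k => fun a => A (∑ i : Fin k, (a i : ℕ) * n ^ (i : ℕ)) = true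

/-- The number `n ≥ 1` is in the spectrum of `φ` relative to `A`: the sentence `φ` has a model with
the universe `{0, ..., n - 1}` in which the built-in symbols have their standard meaning. -/
def InSpec (A : ℕ → Bool) (φ : (Voc.sum OVoc).Sentence) (n : ℕ) : Prop :=
  1 ≤ n ∧ ∃ S : Voc.Structure (Fin n),
    letI := S
    letI := std A n
    (Fin n) ⊨ φ

/-- spectra depend on polynomially many elements -/
def S_SPL : Prop :=
  ∀ φ : (Voc.sum OVoc).Sentence, ∃ d : ℕ, ∀ (n : ℕ) (A A' : ℕ → Bool),
    (∀ y < (n + 2) ^ d, A y = A' y) → (InSpec A φ n ↔ InSpec A' φ n)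

/-- there are countably many sentences -/
def S_SPC : Prop := Countable (Voc.sum OVoc).Sentence

/-- the parity predicate is a spectrum -/
def S_SPP : Prop :=
  ∃ φ : (Voc.sum OVoc).Sentence, ∀ (A : ℕ → Bool) (n : ℕ), 3 ≤ n → (InSpec A φ n ↔ Par A n)

end Pool.Agent.W886.RU
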