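import Pool.Agent.W886.RU.Stm0
import Pool.Agent.W886.RU.Stm2

/-!
# Few changes make bounded formulas strong
-/

set_option autoImplicit false

namespace Pool.Agent.W886.RU

open Filter

theorem up (hCODE : S_CODE) (hSPARSE : S_SPARSE) {g : ℕ → ℝ}
    (hg : ¬ ∀ ε : ℝ, 0 < ε → ∃ᶠ N : ℕ in atTop, g N ≤ (N : ℝ) ^ ε) (O : ℕ → Bool)
    {ι : Type} [Countable ι] (Q : ι → ℕ → (ℕ → Bool) → Prop)
    (hQ : ∀ i, ∃ d : ℕ, ∀ (x : ℕ) (A A' : ℕ → Bool), (∀ y < (x + 2) ^ d, A y = A' y) →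
      (Q i x A ↔ Q i x A')) :
    ∃ A : ℕ → Bool, Close g O A ∧ ∀ i, ∃ e k : ℕ, ∀ x,
      (A (2 ^ e * (2 * (x + e + 2) ^ k + 1)) = true ↔ Q i x A) := by
  classical
  push Not at hg
  obtain ⟨ε, hε, hg⟩ := hg
  obtain ⟨K₀, hK₀⟩ := hSPARSE ε hε
  obtain ⟨u, hu⟩ := exists_surjective_nat (Option ι)
  obtain ⟨K, hK, h⟩ := hCODE K₀ (fun e x A => ∃ i, u e = some i ∧ Q i x A) (by
    intro e
    rcases he : u e with _ | i
    · exact ⟨0, fun x A A' _ => by simp⟩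
    · obtain ⟨d, hd⟩ := hQ i
      refine ⟨d, fun x A A' hA => ?_⟩
      have h1 := hd x A A' hA
      constructor
      · rintro ⟨j, hj, h2⟩
        obtain rfl := Option.some.inj hj
        exact ⟨i, rfl, h1.1 h2⟩
      · rintro ⟨j, hj, h2⟩
        obtain rfl := Option.some.inj hj
        exact ⟨i, rfl, h1.2 h2⟩)
  obtain ⟨A, hA1, hA2⟩ := h O
  refine ⟨A, ?_, fun i => ?_⟩
  · unfold Close
    filter_upwards [hg, hK₀ K hK] with N h1 h2
    refine le_trans ?_ (h2.trans h1.le)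
    exact_mod_cast Finset.card_le_card (by
      intro y hy
      rw [Finset.mem_filter] at hy ⊢
      refine ⟨hy.1, ?_⟩
      by_contra hc
      push Not at hc
      exact hy.2 (hA1 y hc))
  · obtain ⟨e, he⟩ := hu (some i)
    refine ⟨e, K e, fun x => ?_⟩
    have h1 := hA2 e x
    unfold cd at h1
    rw [h1]
    constructor
    · rintro ⟨j, hj, h2⟩
      rw [he] at hj
      obtain rfl := Option.some.inj hj
      exact h2
    · exact fun h2 => ⟨i, he, h2⟩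

/-- the code as a term -/
theorem eval_code {n : ℕ} (p : MvPolynomial (Fin n) ℕ) (e k : ℕ) (v : Fin n → ℕ) :
    MvPolynomial.eval v (MvPolynomial.C (2 ^ e) *
      (MvPolynomial.C 2 * (p + MvPolynomial.C e + MvPolynomial.C 2) ^ k + 1)) =
      2 ^ e * (2 * (MvPolynomial.eval v p + e + 2) ^ k + 1) := by
  simp only [map_mul, map_add, map_pow, MvPolynomial.eval_C, map_one]

theorem up_E2 (hCODE : S_CODE) (hSPARSE : S_SPARSE) (hTUP : S_TUP) (hE2U : S_E2U) {g : ℕ → ℝ}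
    (hg : ¬ ∀ ε : ℝ, 0 < ε → ∃ᶠ N : ℕ in atTop, g N ≤ (N : ℝ) ^ ε) (O : ℕ → Bool) :
    ∃ A : ℕ → Bool, Close g O A ∧ ∀ (k : ℕ) (R : (Fin k → ℕ) → Prop), E2Star A k R →
      Delta0 A k R := by
  obtain ⟨U, hU1, hU2, hU3⟩ := hE2U
  choose tp htp1 htp2 using hTUP
  have hc : ∀ n, Countable (U n) := fun n => (hU1 n).to_subtype
  obtain ⟨A, hA1, hA2⟩ := up hCODE hSPARSE hg O (ι := Σ n : ℕ, U n)
    (fun i x A => ∃ v : Fin i.1 → ℕ, MvPolynomial.eval v (tp i.1) = x ∧ i.2.1 A v = 0) (by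
      rintro ⟨n, Ψ, hΨ⟩
      obtain ⟨d, hd⟩ := hU3 n Ψ hΨ
      refine ⟨d, fun x A A' hA => ?_⟩
      have h1 : ∀ v : Fin n → ℕ, MvPolynomial.eval v (tp n) = x → Ψ A v = Ψ A' v := by
        intro v hv
        refine hd x v (fun i => ?_) A A' hA
        rw [← hv]
        exact htp2 n v i
      constructor
      · rintro ⟨v, hv, h2⟩
        refine ⟨v, hv, ?_⟩
        show Ψ A' v = 0
        rw [← h1 v hv]
        exact h2
      · rintro ⟨v, hv, h2⟩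
        refine ⟨v, hv, ?_⟩
        show Ψ A v = 0
        rw [h1 v hv]
        exact h2)
  refine ⟨A, hA1, ?_⟩
  rintro k R ⟨f, hf, hR⟩
  obtain ⟨Ψ, hΨ, rfl⟩ := hU2 A k f hf
  obtain ⟨e, j, he⟩ := hA2 ⟨k, Ψ, hΨ⟩
  have h1 := Delta0.orc (A := A) (MvPolynomial.C (2 ^ e) *
      (MvPolynomial.C 2 * (tp k + MvPolynomial.C e + MvPolynomial.C 2) ^ j + 1))
  convert h1 using 1
  funext v
  rw [eval_code, he]
  apply propext
  constructor
  · intro h2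
    exact ⟨v, rfl, (hR v).1 h2⟩
  · rintro ⟨v', hv', h2⟩
    have h3 : v' = v := htp1 k hv'
    subst h3
    by_contra h4
    have h5 := (hR v').2 h4
    have h6 : Ψ A v' = 0 := h2
    omega

theorem up_spec (hCODE : S_CODE) (hSPARSE : S_SPARSE) (hSPL : S_SPL) (hSPC : S_SPC) {g : ℕ → ℝ}
    (hg : ¬ ∀ ε : ℝ, 0 < ε → ∃ᶠ N : ℕ in atTop, g N ≤ (N : ℝ) ^ ε) (O : ℕ → Bool) :
    ∃ A : ℕ → Bool, Close g O A ∧ ∀ φ, Delta0 A 1 (fun v => InSpec A φ (v 0)) := by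
  have hc : Countable (Voc.sum OVoc).Sentence := hSPC
  obtain ⟨A, hA1, hA2⟩ := up hCODE hSPARSE hg O (ι := (Voc.sum OVoc).Sentence)
    (fun φ x A => InSpec A φ x) hSPL
  refine ⟨A, hA1, fun φ => ?_⟩
  obtain ⟨e, j, he⟩ := hA2 φ
  have h1 := Delta0.orc (A := A) (MvPolynomial.C (2 ^ e) *
      (MvPolynomial.C 2 * (MvPolynomial.X (0 : Fin 1) + MvPolynomial.C e + MvPolynomial.C 2) ^ j
        + 1))
  convert h1 using 1
  funext v
  rw [eval_code, MvPolynomial.eval_X, he]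

end Pool.Agent.W886.RU
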