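import Pool.Agent.W886.RU.Low
import Pool.Agent.W886.RU.Upp
import Pool.Agent.W924.RU.UD0
import Pool.Agent.W168.RUCKT
import Pool.Agent.W290.RUSW
import Pool.Agent.W503.RUCOMB
import Pool.Agent.W469.RUASY
import Pool.Agent.W637.RUMEAS
import Pool.Agent.W797.RUCODE
import Pool.Agent.W327.RUSparse
import Pool.Agent.W692.RUTUP
import Pool.Agent.W675.RU.E2U
import Pool.Agent.W376.RUD0E2
import Pool.Agent.W688.RU.PARE2
import Pool.Agent.W688.RU.SPL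
import Pool.Agent.W435.RU.SPC
import Pool.Agent.W274.RU.RUSPP

/-!
# All parts together
-/

set_option autoImplicit false

namespace Pool.Agent.W886.RU

open Filter MeasureTheory

theorem par_far {g : ℕ → ℝ}
    (hg : ∀ ε : ℝ, 0 < ε → ∃ᶠ N : ℕ in atTop, g N ≤ (N : ℝ) ^ ε) :
    ∀ᵐ O ∂randomSet, ∀ A : ℕ → Bool, Close g O A → ∀ P : ℕ → Prop,
      (∀ᶠ x in atTop, P x ↔ Par A x) → ¬ Delta0 A 1 (fun v => P (v 0)) :=
  low Pool.Agent.W924.RU.UD0.task1 Pool.Agent.W924.RU.UD0.task2 Pool.Agent.W168.RUCKT.task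
    (Pool.Agent.W503.RUCOMB.task Pool.Agent.W290.RUSW.task) Pool.Agent.W469.RUASY.task
    Pool.Agent.W637.RU.Meas.task hg

theorem close_E2 {g : ℕ → ℝ}
    (hg : ¬ ∀ ε : ℝ, 0 < ε → ∃ᶠ N : ℕ in atTop, g N ≤ (N : ℝ) ^ ε) (O : ℕ → Bool) :
    ∃ A : ℕ → Bool, Close g O A ∧ ∀ (k : ℕ) (R : (Fin k → ℕ) → Prop), E2Star A k R ↔
      Delta0 A k R := by
  obtain ⟨A, h1, h2⟩ := up_E2 Pool.Agent.W797.RUCODE.task Pool.Agent.W327.RUSparse.task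
    Pool.Agent.W692.RUTUP.task Pool.Agent.W675.RU.task hg O
  exact ⟨A, h1, fun k R => ⟨h2 k R, Pool.Agent.W376.RUD0E2.task A k R⟩⟩

theorem close_spec {g : ℕ → ℝ}
    (hg : ¬ ∀ ε : ℝ, 0 < ε → ∃ᶠ N : ℕ in atTop, g N ≤ (N : ℝ) ^ ε) (O : ℕ → Bool) :
    ∃ A : ℕ → Bool, Close g O A ∧ ∀ φ, Delta0 A 1 (fun v => InSpec A φ (v 0)) :=
  up_spec Pool.Agent.W797.RUCODE.task Pool.Agent.W327.RUSparse.task
    Pool.Agent.W688.RU.SPL.task Pool.Agent.W435.RU.task hg O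

theorem par_E2 (A : ℕ → Bool) : E2Star A 1 (fun v => Par A (v 0)) :=
  Pool.Agent.W688.RU.PARE2.task A

theorem par_spec : ∃ φ : (Voc.sum OVoc).Sentence, ∀ (A : ℕ → Bool) (n : ℕ), 3 ≤ n →
    (InSpec A φ n ↔ Par A n) := Pool.Agent.W274.RU.task

end Pool.Agent.W886.RU
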