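import Pool.Agent.W886.RU.Stm1
import Pool.Agent.H620R2.Gauge.Cover

/-!
# Bounded formulas do not define the parity predicate after few changes of a random set
-/

set_option autoImplicit false

namespace Pool.Agent.W886.RU

open Filter MeasureTheory Finset H568R2 Pool.Agent.H676 Pool.Agent.H620R2.Gauge

/-- the block of `x` -/
def bk (N x : ℕ) : Finset (Fin N) := univ.filter (fun i => x ^ 2 ≤ (i : ℕ) ∧ (i : ℕ) < x ^ 2 + x)

theorem card_bk {N x : ℕ} (h : x ^ 2 + x ≤ N) (q : Fin N → Prop) [DecidablePred q]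
    (q' : ℕ → Prop) [DecidablePred q'] (hq : ∀ w, ∀ h : x ^ 2 + w < N, (q ⟨x ^ 2 + w, h⟩ ↔ q' w)) :
    ((bk N x).filter q).card = ((range x).filter q').card := by
  symm
  refine card_bij (fun w hw => (⟨x ^ 2 + w, by
    have := mem_range.1 (mem_filter.1 hw).1
    omega⟩ : Fin N)) ?_ ?_ ?_
  · intro w hw
    have h1 := mem_filter.1 hw
    have h2 := mem_range.1 h1.1
    rw [mem_filter, bk, mem_filter]
    refine ⟨⟨mem_univ _, ?_, ?_⟩, (hq w (by omega)).2 h1.2⟩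
    · show x ^ 2 ≤ x ^ 2 + w
      omega
    · show x ^ 2 + w < x ^ 2 + x
      omega
  · intro w hw w' hw' he
    have h1 := congrArg Fin.val he
    simp only at h1
    omega
  · intro i hi
    rw [mem_filter, bk, mem_filter] at hi
    obtain ⟨⟨_, h1, h2⟩, h3⟩ := hi
    have h4 : x ^ 2 + ((i : ℕ) - x ^ 2) = i := by omega
    refine ⟨(i : ℕ) - x ^ 2, ?_, Fin.ext h4⟩
    rw [mem_filter, mem_range]
    refine ⟨by omega, (hq _ (by omega)).1 ?_⟩
    have h5 : (⟨x ^ 2 + ((i : ℕ) - x ^ 2), by omega⟩ : Fin N) = i := Fin.ext h4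
    rw [h5]
    exact h3

theorem par_bk {N x : ℕ} (h : x ^ 2 + x ≤ N) (A : ℕ → Bool) :
    par (bk N x) (fun i => A i) = true ↔ Par A x := by
  unfold par Par
  rw [decide_eq_true_eq, card_bk h (fun i => A i = true) (fun w => A (x ^ 2 + w) = true)
    (fun w _ => Iff.rfl)]

theorem le_card_bk {N x : ℕ} (h : x ^ 2 + x ≤ N) : (bk N x).card = x := by
  have h1 := card_bk h (fun _ => True) (fun _ => True) (fun w _ => Iff.rfl)
  rw [filter_true, filter_true, card_range] at h1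
  exact h1

theorem bk_disj {N x x' : ℕ} (h : x ≠ x') : Disjoint (bk N x) (bk N x') := by
  wlog hlt : x < x' generalizing x x'
  · exact (this h.symm (by omega)).symm
  refine disjoint_left.2 fun i hi hi' => ?_
  rw [bk, mem_filter] at hi hi'
  have h1 : (x + 1) ^ 2 ≤ x' ^ 2 := Nat.pow_le_pow_left hlt 2
  have h2 : (x + 1) ^ 2 = x ^ 2 + 2 * x + 1 := by ring
  omega

/-- the sets for which `Φ` defines the parity predicate -/
def Bad (Φ : (ℕ → Bool) → (Fin 1 → ℕ) → Prop) (x₀ : ℕ) : Set (ℕ → Bool) :=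
  {A | ∀ x, x₀ ≤ x → (Φ A (fun _ => x) ↔ Par A x)}

theorem bad_null (hCKT : S_CKT) (hCOMB : S_COMB) (hASY : S_ASY) (hMEAS : S_MEAS) {g : ℕ → ℝ}
    (hg : ∀ ε : ℝ, 0 < ε → ∃ᶠ N : ℕ in atTop, g N ≤ (N : ℝ) ^ ε)
    {Φ : (ℕ → Bool) → (Fin 1 → ℕ) → Prop} (hΦ : UD0 1 Φ) (x₀ : ℕ) :
    ∀ᵐ O ∂randomSet, ∀ A : ℕ → Bool, Close g O A → A ∉ Bad Φ x₀ := by
  classical
  refine hMEAS _ g fun n₁ δ hδ => ?_
  obtain ⟨k, c, hkc⟩ := hCKT 1 Φ hΦ
  obtain ⟨ε, hε, hasy⟩ := hASY k (c + 2)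
  have h1 : ∀ᶠ N : ℕ in atTop, (1 : ℝ) / N ≤ δ := by
    have := tendsto_one_div_atTop_nhds_zero_nat (𝕜 := ℝ)
    exact (this.eventually (ge_mem_nhds hδ))
  obtain ⟨N, hN1, hN2, hN3, hN4⟩ := ((hg ε hε).and_eventually
    ((hasy (max x₀ 1)).and ((eventually_ge_atTop (max n₁ 1)).and h1))).exists
  obtain ⟨M, a, t, r, s, hM, ht, hMN, haM, hatr, hrs, hb⟩ := hN2
  have hM0 : x₀ ≤ M := (le_max_left _ _).trans hM
  have hM1 : 1 ≤ M := (le_max_right _ _).trans hM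
  have hc1 : (2 * M + 2) ^ c ≤ (2 * M + 2) ^ (c + 2) := Nat.pow_le_pow_right (by omega) (by omega)
  have hc2 : (2 * M + 2) ^ 2 ≤ (2 * M + 2) ^ (c + 2) := Nat.pow_le_pow_right (by omega) (by omega)
  set X : Finset ℕ := Ico M (M + a) with hX
  have hXc : X.card = a := by rw [hX, Nat.card_Ico]; omega
  have hXm : ∀ x ∈ X, M ≤ x ∧ x ≤ 2 * M := by
    intro x hx
    rw [hX, mem_Ico] at hx
    omega
  have hblk : ∀ x ∈ X, x ^ 2 + x ≤ N := by
    intro x hx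
    have h2 := (hXm x hx).2
    have h3 : x ^ 2 + x ≤ (2 * M + 2) ^ 2 := by nlinarith
    exact h3.trans (hc2.trans hMN)
  have hC : ∀ x : ℕ, ∃ C : Ckt (Fin N), x ∈ X → C.DepthLe k ∧ C.size ≤ (2 * M + 2) ^ c ∧
      C.Leaves 1 ∧ ∀ A : ℕ → Bool, (C.val (fun i => A i) = true ↔ Φ A (fun _ => x)) := by
    intro x
    by_cases hx : x ∈ X
    · obtain ⟨C, h2⟩ := hkc (2 * M) N (fun _ => x) (fun _ => (hXm x hx).2) (hc1.trans hMN)
      exact ⟨C, fun _ => h2⟩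
    · exact ⟨Ckt.leaf fun _ => true, fun h2 => absurd h2 hx⟩
  choose C hC using hC
  have hmono : ∀ (D : Ckt (Fin N)), D.Leaves 1 → D.Leaves t := by
    intro D
    induction D with
    | leaf f => exact fun h2 => DTr.mono h2 ht
    | gate b n cs ih => exact fun h2 i => ih i (h2 i)
  refine ⟨N, (le_max_left _ _).trans hN3, univ.filter (fun w : Fin N → Bool =>
    ∀ x ∈ X, (C x).val w = par (bk N x) w), ?_, ?_⟩
  · intro A hA
    rw [mem_filter]
    refine ⟨mem_univ _, fun x hx => ?_⟩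
    have h2 := (hC x hx).2.2.2 A
    have h3 := par_bk (hblk x hx) A
    have h4 : Φ A (fun _ => x) ↔ Par A x := hA x (hM0.trans (hXm x hx).1)
    apply Bool.eq_iff_iff.2
    rw [h2, h3, h4]
  · have hcard : ((univ.filter (fun w : Fin N → Bool =>
        ∀ x ∈ X, (C x).val w = par (bk N x) w)).card : ℝ) * 2 ^ (-(N : ℝ)) =
        Ex unif (fun w : Fin N → Bool =>
          if ∀ x ∈ X, (C x).val w = par (bk N x) w then (1 : ℝ) else 0) := by
      convert card_of_Ex (N := N) (fun w => ∀ x ∈ X, (C x).val w = par (bk N x) w)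
    rw [hcard]
    have ht0 : (0 : ℝ) < t := by exact_mod_cast ht
    have hq0 : (0 : ℝ) ≤ 1 / (24 * t) := by positivity
    have hq1 : (1 : ℝ) / (24 * t) ≤ 1 / 3 := by
      apply one_div_le_one_div_of_le (by norm_num)
      have : (1 : ℝ) ≤ t := by exact_mod_cast ht
      linarith
    have h5 := hCOMB (Fin N) ℕ t k (1 / (24 * t)) ht hq0 hq1 X C (bk N) ((2 * M + 2) ^ c) r s
      (fun x hx => ⟨(hC x hx).1, hmono _ (hC x hx).2.2.1, (hC x hx).2.1⟩)
      (fun x _ x' _ hne => bk_disj hne) (by rw [hXc]; exact hatr)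
      (fun x hx => by rw [le_card_bk (hblk x hx)]; exact hrs.trans (hXm x hx).1)
    rw [hXc] at h5
    have h6 : (12 * (t : ℝ) * (1 / (24 * t))) = 1 / 2 := by
      field_simp
      norm_num
    rw [h6] at h5
    have h7 : ((a : ℝ) * (((2 * M + 2) ^ c : ℕ) * (1 / 2) ^ (t + 1))) ≤
        (a : ℝ) * (2 * M + 2) ^ (c + 2) * (1 / 2) ^ (t + 1) := by
      rw [mul_assoc]
      apply mul_le_mul_of_nonneg_left _ (Nat.cast_nonneg _)
      apply mul_le_mul_of_nonneg_right _ (by positivity)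
      exact_mod_cast hc1
    have h8 : (N + 1 : ℝ) ^ (max (g N) 0) ≤ (N + 1 : ℝ) ^ ((N : ℝ) ^ ε) := by
      apply Real.rpow_le_rpow_of_exponent_le
      · have : (0 : ℝ) ≤ N := Nat.cast_nonneg _
        linarith
      · exact max_le hN1 (by positivity)
    refine le_trans (mul_le_mul (b := (a : ℝ) * (2 * M + 2) ^ (c + 2) * (1 / 2) ^ (t + 1) +
        a * ((r + 1) * (1 - (1 / (24 * t : ℝ)) ^ k) ^ s) + (1 / 2) ^ a) ?_ h8 (by positivity) ?_)
        (hb.trans hN4)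
    · refine le_trans (le_of_eq ?_) (h5.trans ?_)
      · congr!
      · linarith
    · have h9 : (0 : ℝ) ≤ 1 - (1 / (24 * t : ℝ)) ^ k := by
        have := pow_le_one₀ (n := k) hq0 (by linarith)
        linarith
      positivity

/-- the parity predicate is not definable by a bounded formula after few changes -/
theorem low (hUD0 : S_UD0) (hCNT : S_CNT) (hCKT : S_CKT) (hCOMB : S_COMB) (hASY : S_ASY)
    (hMEAS : S_MEAS) {g : ℕ → ℝ}
    (hg : ∀ ε : ℝ, 0 < ε → ∃ᶠ N : ℕ in atTop, g N ≤ (N : ℝ) ^ ε) :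
    ∀ᵐ O ∂randomSet, ∀ A : ℕ → Bool, Close g O A → ∀ P : ℕ → Prop, (∀ᶠ x in atTop, P x ↔ Par A x) →
      ¬ Delta0 A 1 (fun v => P (v 0)) := by
  have hc : Countable {Φ : (ℕ → Bool) → (Fin 1 → ℕ) → Prop | UD0 1 Φ} := (hCNT 1).to_subtype
  have h1 : ∀ᵐ O ∂randomSet, ∀ (Φ : {Φ : (ℕ → Bool) → (Fin 1 → ℕ) → Prop | UD0 1 Φ}) (x₀ : ℕ),
      ∀ A : ℕ → Bool, Close g O A → A ∉ Bad Φ.1 x₀ := by
    rw [ae_all_iff]
    intro Φ
    rw [ae_all_iff]
    intro x₀
    exact bad_null hCKT hCOMB hASY hMEAS hg Φ.2 x₀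
  filter_upwards [h1] with O hO A hA P hP hD
  obtain ⟨Φ, hΦ, h2⟩ := hUD0 A 1 _ hD
  obtain ⟨x₀, hx₀⟩ := eventually_atTop.1 hP
  refine hO ⟨Φ, hΦ⟩ x₀ A hA fun x hx => ?_
  rw [← hx₀ x hx]
  exact iff_of_eq (congrFun h2 (fun _ => x)).symm

end Pool.Agent.W886.RU
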