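import Pool.Agent.W886.RU.Stm0
import Pool.Agent.H620R2.Gauge.Comb

/-!
# Circuits: statements
-/

set_option autoImplicit false

namespace Pool.Agent.W886.RU

open Finset H568R2 Pool.Agent.H676 Pool.Agent.H620R2.Gauge

/-- circuits with arbitrary leaves -/
inductive Ckt (I : Type) : Type
  | leaf (f : (I → Bool) → Bool) : Ckt I
  | gate (b : Bool) (n : ℕ) (c : Fin n → Ckt I) : Ckt I

namespace Ckt

variable {I : Type}

/-- the value: `gate true` is a disjunction, `gate false` a conjunction -/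
def val : Ckt I → (I → Bool) → Bool
  | leaf f, a => f a
  | gate true _ c, a => decide (∃ i, (c i).val a = true)
  | gate false _ c, a => decide (∀ i, (c i).val a = true)

/-- number of nodes -/
def size : Ckt I → ℕ
  | leaf _ => 1
  | gate _ _ c => (∑ i, (c i).size) + 1

/-- depth at most `k` -/
def DepthLe : ℕ → Ckt I → Prop
  | _, leaf _ => True
  | 0, gate _ _ _ => False
  | k + 1, gate _ _ c => ∀ i, DepthLe k (c i)

/-- all leaves are decision trees of depth `t` -/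
def Leaves [Fintype I] [DecidableEq I] (t : ℕ) : Ckt I → Prop
  | leaf f => DTr t f
  | gate _ _ c => ∀ i, Leaves t (c i)

end Ckt

/-- formulas are circuits of constant depth and polynomial size -/
def S_CKT : Prop :=
  ∀ (n : ℕ) (Φ : (ℕ → Bool) → (Fin n → ℕ) → Prop), UD0 n Φ → ∃ k c : ℕ,
    ∀ (m N : ℕ) (v : Fin n → ℕ), (∀ i, v i ≤ m) → (m + 2) ^ c ≤ N →
      ∃ C : Ckt (Fin N), C.DepthLe k ∧ C.size ≤ (m + 2) ^ c ∧ C.Leaves 1 ∧
        ∀ A : ℕ → Bool, (C.val (fun i => A i) = true ↔ Φ A v)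

open Classical in
/-- switching -/
def S_SW : Prop :=
  ∀ (I : Type) [Fintype I] [DecidableEq I] (t k : ℕ) (q : ℝ), 1 ≤ t → 0 ≤ q → q ≤ 1 / 3 →
    ∀ C : Ckt I, C.DepthLe k → C.Leaves t →
      Ex (wq (q ^ k)) (fun ρ : Restr I => if ¬ DTr t (rs C.val ρ) then (1 : ℝ) else 0) ≤
        C.size * (12 * t * q) ^ (t + 1)

open Classical in
/-- circuits do not compute many parities -/
def S_COMB : Prop :=
  ∀ (I ι : Type) [Fintype I] [DecidableEq I] [DecidableEq ι] (t k : ℕ) (q : ℝ), 1 ≤ t →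
    0 ≤ q → q ≤ 1 / 3 → ∀ (X : Finset ι) (C : ι → Ckt I) (B : ι → Finset I) (L r s : ℕ),
    (∀ x ∈ X, (C x).DepthLe k ∧ (C x).Leaves t ∧ (C x).size ≤ L) →
    (∀ x ∈ X, ∀ x' ∈ X, x ≠ x' → Disjoint (B x) (B x')) →
    X.card * t ≤ r → (∀ x ∈ X, (r + 1) * s ≤ (B x).card) →
    Ex unif (fun a : I → Bool => if ∀ x ∈ X, (C x).val a = par (B x) a then (1 : ℝ) else 0) ≤
      X.card * (L * (12 * t * q) ^ (t + 1)) + X.card * ((r + 1) * (1 - q ^ k) ^ s) +
        (1 / 2) ^ X.card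

end Pool.Agent.W886.RU
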